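import Pool.Agent.Helper1.FIM.Grammar

/-!
Context-free fixed-point submonoids of free inverse monoids are rational.
-/

namespace Pool.Agent.Results.MP_3f8f93_al.CFImpliesRational

open Pool.Agent.Helper1.FIM

/-- Negative answer to Q1: for every finite alphabet `A` and every endomorphism `φ` of the free
inverse monoid on `A`, if the fixed-point submonoid of `φ` is context-free, then it is rational. -/
theorem result (A : Type) [Finite A] (φ : FreeInverseMonoid A →* FreeInverseMonoid A)
    (h : IsContextFreeSubset (fixedPoints φ)) : IsRationalSubset (fixedPoints φ) :=
  rational_of_contextFree φ h

end Pool.Agent.Results.MP_3f8f93_al.CFImpliesRational
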